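import Mathlib

set_option autoImplicit false
set_option linter.unusedSectionVars false

namespace Pool.Agent.Results.MP_b53726_co.ComplementNotSkew

/-- An `r × r` array whose cells hold sets of symbols from `{0, 1, ..., r}`. -/
def Arr (r : ℕ) : Type := Fin r → Fin r → Set (Fin (r + 1))

/-- Room square of side `r` on the symbols `{0, 1, ..., r}`. -/
def IsRoom (r : ℕ) (C : Arr r) : Prop :=
  Odd r ∧
  (∀ i j, C i j = ∅ ∨ ∃ x y, x ≠ y ∧ C i j = {x, y}) ∧
  (∀ x y : Fin (r + 1), x ≠ y → ∃! c : Fin r × Fin r, C c.1 c.2 = {x, y}) ∧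
  (∀ i x, ∃! j, x ∈ C i j) ∧
  (∀ j x, ∃! i, x ∈ C i j)

/-- Isomorphism: permute rows, permute columns, relabel symbols. -/
def Iso {r s : ℕ} (C : Arr r) (D : Arr s) : Prop :=
  ∃ (σ τ : Fin r ≃ Fin s) (π : Fin (r + 1) ≃ Fin (s + 1)), ∀ i j, D (σ i) (τ j) = π '' C i j

/-- Standardized: the cell `(i, i)` contains `{0, i}` (rows and columns `1, ..., r` are the
elements of `Fin r`, shifted by one). -/
def IsStd {r : ℕ} (C : Arr r) : Prop := ∀ i, C i i = {0, i.succ}

/-- `A₁ + A₂ = J + I` for the incidence matrices of two standardized squares. -/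
def Complementary {r : ℕ} (C D : Arr r) : Prop :=
  IsStd C ∧ IsStd D ∧ ∀ i j, i ≠ j → (C i j ≠ ∅ ↔ D i j = ∅)

/-- The square is isomorphic to a standardized Room square with a complementary standardized
Room square. -/
def HasComplement {r : ℕ} (C : Arr r) : Prop :=
  ∃ C' D : Arr r, IsRoom r C' ∧ IsRoom r D ∧ Iso C C' ∧ Complementary C' D

/-- `A + Aᵀ = J + I` for the incidence matrix of a standardized square. -/
def IsSkew {r : ℕ} (C : Arr r) : Prop :=
  IsStd C ∧ ∀ i j, i ≠ j → (C i j ≠ ∅ ↔ C j i = ∅)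

/-! ### generic arrays -/

/-- the Room conditions over arbitrary index and symbol types -/
def GRoom {I R : Type} (C : I → I → Set R) : Prop :=
  (∀ i j, C i j = ∅ ∨ ∃ x y, x ≠ y ∧ C i j = {x, y}) ∧
  (∀ x y : R, x ≠ y → ∃! c : I × I, C c.1 c.2 = {x, y}) ∧
  (∀ i x, ∃! j, x ∈ C i j) ∧
  (∀ j x, ∃! i, x ∈ C i j)

theorem GRoom.transport {I R I' R' : Type} {C : I → I → Set R} {D : I' → I' → Set R'}
    (hC : GRoom C) (σ τ : I ≃ I') (π : R ≃ R') (h : ∀ i j, D (σ i) (τ j) = π '' C i j) :
    GRoom D := by
  have h' : ∀ i j, D i j = π '' C (σ.symm i) (τ.symm j) := by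
    intro i j
    have := h (σ.symm i) (τ.symm j)
    simpa using this
  obtain ⟨h1, h2, h3, h4⟩ := hC
  refine ⟨?_, ?_, ?_, ?_⟩
  · intro i j
    rcases h1 (σ.symm i) (τ.symm j) with h0 | ⟨x, y, hxy, h0⟩
    · left; rw [h', h0]; simp
    · right
      refine ⟨π x, π y, fun e => hxy (π.injective e), ?_⟩
      rw [h', h0, Set.image_pair]
  · intro x y hxy
    obtain ⟨c, hc, hcu⟩ := h2 (π.symm x) (π.symm y) (fun e => hxy (π.symm.injective e))
    refine ⟨(σ c.1, τ c.2), ?_, ?_⟩
    · show D (σ c.1) (τ c.2) = {x, y}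
      rw [h]
      have hc' : C c.1 c.2 = {π.symm x, π.symm y} := hc
      rw [hc', Set.image_pair]; simp
    · rintro ⟨a, b⟩ hab
      have hab' : D a b = {x, y} := hab
      rw [h'] at hab'
      have h5 : C (σ.symm a) (τ.symm b) = {π.symm x, π.symm y} := by
        have := congrArg (fun S => π.symm '' S) hab'
        simpa [Set.image_pair, Set.image_image] using this
      have h6 := hcu (σ.symm a, τ.symm b) h5
      rw [← h6]; simp
  · intro i x
    obtain ⟨j, hj, hju⟩ := h3 (σ.symm i) (π.symm x)
    refine ⟨τ j, ?_, ?_⟩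
    · show x ∈ D i (τ j)
      rw [h']
      refine ⟨π.symm x, ?_, by simp⟩
      simpa using hj
    · intro j' hj'
      have hj'' : x ∈ D i j' := hj'
      rw [h'] at hj''
      obtain ⟨y, hy, hyx⟩ := hj''
      have : τ.symm j' = j := hju _ (by
        have : π.symm x = y := by rw [← hyx]; simp
        show π.symm x ∈ C (σ.symm i) (τ.symm j')
        rw [this]; exact hy)
      rw [← this]; simp
  · intro j x
    obtain ⟨i, hi, hiu⟩ := h4 (τ.symm j) (π.symm x)
    refine ⟨σ i, ?_, ?_⟩
    · show x ∈ D (σ i) j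
      rw [h']
      refine ⟨π.symm x, ?_, by simp⟩
      simpa using hi
    · intro i' hi'
      have hi'' : x ∈ D i' j := hi'
      rw [h'] at hi''
      obtain ⟨y, hy, hyx⟩ := hi''
      have : σ.symm i' = i := hiu _ (by
        have : π.symm x = y := by rw [← hyx]; simp
        show π.symm x ∈ C (σ.symm i') (τ.symm j)
        rw [this]; exact hy)
      rw [← this]; simp

/-! ### the square over a field with `24 s + 13` elements and characteristic 13 -/

section field

variable {F : Type} [Field F] [Fintype F] [CharP F 13] (s : ℕ)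

theorem c13 : (13 : F) = 0 := by
  have := CharP.cast_eq_zero F 13
  exact_mod_cast this

/-- the quartic character, with values in the field -/
def chi (x : F) : F := x ^ (6 * s + 3)

theorem chi_mul (x y : F) : chi s (x * y) = chi s x * chi s y := by
  simp [chi, mul_pow]

theorem chi_zero : chi s (0 : F) = 0 := by simp [chi]

theorem chi_eq_zero (x : F) (h : chi s x = 0) : x = 0 := by
  unfold chi at h
  exact pow_eq_zero_iff (by omega) |>.1 h

/-- the value of the character at 2 -/
def iota : F := chi s 2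

theorem iota_sq : (iota s : F) * iota s = -1 := by
  have h13 := c13 (F := F)
  unfold iota chi
  have h64 : (2 : F) ^ 6 = -1 := by linear_combination (5 : F) * h13
  have h : (2 : F) ^ (6 * s + 3) * 2 ^ (6 * s + 3) = ((2 : F) ^ 6) ^ (2 * s) * 2 ^ 6 := by
    rw [← pow_mul, ← pow_add, ← pow_add]
    congr 1
    ring
  rw [h, h64]
  simp [pow_mul]

theorem chi_two : chi s (2 : F) = iota s := rfl

theorem chi_four : chi s (4 : F) = -1 := by
  have : (4 : F) = 2 * 2 := by norm_num
  rw [this, chi_mul, chi_two, iota_sq]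

theorem chi_three : chi s (3 : F) = 1 := by
  have h13 := c13 (F := F)
  have : (3 : F) = 4 * 4 := by linear_combination -h13
  rw [this, chi_mul, chi_four]; norm_num

theorem chi_nine : chi s (9 : F) = 1 := by
  have : (9 : F) = 3 * 3 := by norm_num
  rw [this, chi_mul, chi_three]; norm_num

theorem chi_eight : chi s (8 : F) = - iota s := by
  have : (8 : F) = 2 * 4 := by norm_num
  rw [this, chi_mul, chi_four, chi_two]; ring

theorem chi_five : chi s (5 : F) = iota s := by
  have h13 := c13 (F := F)
  have : (5 : F) = 2 * 9 := by linear_combination -h13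
  rw [this, chi_mul, chi_nine, chi_two]; ring

theorem chi_six : chi s (6 : F) = iota s := by
  have : (6 : F) = 2 * 3 := by norm_num
  rw [this, chi_mul, chi_three, chi_two]; ring

theorem chi_ten : chi s (10 : F) = -1 := by
  have : (10 : F) = 2 * 5 := by norm_num
  rw [this, chi_mul, chi_five, chi_two, iota_sq]

theorem chi_neg_one : chi s (-1 : F) = -1 := by
  have h13 := c13 (F := F)
  have : chi s (-1 : F) = chi s (4 * 3 : F) := by
    congr 1
    linear_combination -h13
  rw [this, chi_mul, chi_four, chi_three]; norm_num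

theorem chi_one : chi s (1 : F) = 1 := by simp [chi]

theorem chi_neg (x : F) : chi s (-x) = - chi s x := by
  have : -x = (-1) * x := by ring
  rw [this, chi_mul, chi_neg_one]; ring

theorem chi_cases (hq : Fintype.card F = 24 * s + 13) (x : F) (hx : x ≠ 0) :
    chi s x = 1 ∨ chi s x = -1 ∨ chi s x = iota s ∨ chi s x = - iota s := by
  have h1 : x ^ (Fintype.card F - 1) = 1 := FiniteField.pow_card_sub_one_eq_one x hx
  have h2 : chi s x ^ 4 = 1 := by
    unfold chi
    rw [← pow_mul, ← h1]
    congr 1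
    omega
  have hi := iota_sq (F := F) s
  have h3 : (chi s x - 1) * (chi s x + 1) * ((chi s x - iota s) * (chi s x + iota s)) = 0 := by
    linear_combination h2 - (chi s x ^ 2 - 1) * hi
  rcases mul_eq_zero.1 h3 with h | h
  · rcases mul_eq_zero.1 h with h | h
    · left; linear_combination h
    · right; left; linear_combination h
  · rcases mul_eq_zero.1 h with h | h
    · right; right; left; linear_combination h
    · right; right; right; linear_combination h

theorem two_ne : (2 : F) ≠ 0 := by
  intro h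
  have := CharP.cast_eq_zero_iff F 13 2
  have h2 : ((2 : ℕ) : F) = 0 := by exact_mod_cast h
  have := this.1 h2
  omega

theorem one_ne_neg_one : (1 : F) ≠ -1 := by
  intro h
  exact two_ne (F := F) (by linear_combination h)

theorem iota_ne_one : (iota s : F) ≠ 1 := by
  intro h
  have hi := iota_sq (F := F) s
  rw [h] at hi
  exact one_ne_neg_one (F := F) (by linear_combination hi)

theorem iota_ne_neg_one : (iota s : F) ≠ -1 := by
  intro h
  have hi := iota_sq (F := F) s
  rw [h] at hi
  exact one_ne_neg_one (F := F) (by linear_combination hi)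

theorem iota_ne_zero : (iota s : F) ≠ 0 := by
  intro h
  have hi := iota_sq (F := F) s
  rw [h] at hi
  exact one_ne_zero (α := F) (by linear_combination hi)

theorem iota_ne_neg : (iota s : F) ≠ - iota s := by
  intro h
  have : (2 : F) * iota s = 0 := by linear_combination h
  rcases mul_eq_zero.1 this with h | h
  · exact two_ne h
  · exact iota_ne_zero s h

open Classical in
/-- the array over the field -/
noncomputable def cell (ρ κ : F) : Set (Option F) :=
  if ρ = κ then {none, some ρ}
  else if chi s (ρ - κ) = 1 then {some (ρ + 9 * (ρ - κ)), some (ρ + 5 * (ρ - κ))}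
  else if chi s (ρ - κ) = -1 then {some (ρ + 3 * (ρ - κ)), some (ρ + 5 * (ρ - κ))}
  else ∅

theorem chi_eleven : chi s (11 : F) = - iota s := by
  have h13 := c13 (F := F)
  have : (11 : F) = - 2 := by linear_combination h13
  rw [this, chi_neg, chi_two]

theorem chi_seven : chi s (7 : F) = - iota s := by
  have h13 := c13 (F := F)
  have : (7 : F) = - 6 := by linear_combination h13
  rw [this, chi_neg, chi_six]

theorem cell_diag (ρ : F) : cell s ρ ρ = {none, some ρ} := by simp [cell]

theorem ne_of_chi {ρ κ : F} (h : chi s (ρ - κ) = 1 ∨ chi s (ρ - κ) = -1) : ρ ≠ κ := by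
  rintro rfl
  rw [sub_self, chi_zero] at h
  rcases h with h | h
  · exact zero_ne_one h
  · exact one_ne_zero (α := F) (by linear_combination h)

theorem cell_one {ρ κ : F} (h : chi s (ρ - κ) = 1) :
    cell s ρ κ = {some (ρ + 9 * (ρ - κ)), some (ρ + 5 * (ρ - κ))} := by
  simp [cell, ne_of_chi s (Or.inl h), h]

theorem cell_neg {ρ κ : F} (h : chi s (ρ - κ) = -1) :
    cell s ρ κ = {some (ρ + 3 * (ρ - κ)), some (ρ + 5 * (ρ - κ))} := by
  have h1 : chi s (ρ - κ) ≠ 1 := by rw [h]; exact fun e => one_ne_neg_one e.symm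
  unfold cell
  rw [if_neg (ne_of_chi s (Or.inr h)), if_neg h1, if_pos h]

theorem cell_empty {ρ κ : F} (h0 : ρ ≠ κ) (h1 : chi s (ρ - κ) ≠ 1) (h2 : chi s (ρ - κ) ≠ -1) :
    cell s ρ κ = ∅ := by
  unfold cell
  rw [if_neg h0, if_neg h1, if_neg h2]

theorem none_mem (ρ κ : F) : none ∈ cell s ρ κ ↔ ρ = κ := by
  by_cases h : ρ = κ
  · subst h; simp [cell_diag]
  · constructor
    · intro hm
      exfalso
      unfold cell at hm
      rw [if_neg h] at hm
      split_ifs at hm <;> simp at hm
    · intro e; exact absurd e h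

theorem some_mem (ρ κ y : F) : some y ∈ cell s ρ κ ↔
    (ρ = κ ∧ y = ρ) ∨
    (chi s (ρ - κ) = 1 ∧ (y = ρ + 9 * (ρ - κ) ∨ y = ρ + 5 * (ρ - κ))) ∨
    (chi s (ρ - κ) = -1 ∧ (y = ρ + 3 * (ρ - κ) ∨ y = ρ + 5 * (ρ - κ))) := by
  by_cases h : ρ = κ
  · subst h
    rw [cell_diag, sub_self, chi_zero]
    have h1 : ¬ ((0 : F) = -1) := by
      intro e; exact one_ne_zero (α := F) (by linear_combination e)
    simp [h1]
  · by_cases h1 : chi s (ρ - κ) = 1
    · rw [cell_one s h1]
      have h2 : ¬ chi s (ρ - κ) = -1 := by rw [h1]; exact one_ne_neg_one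
      simp only [h, h1, false_and, true_and, false_or, Set.mem_insert_iff,
        Set.mem_singleton_iff, Option.some.injEq]
      have h3 : ¬ ((1 : F) = -1) := one_ne_neg_one
      simp [h3]
    · by_cases h2 : chi s (ρ - κ) = -1
      · rw [cell_neg s h2]
        have h3 : ¬ ((-1 : F) = 1) := fun e => one_ne_neg_one e.symm
        simp [h, h2, h3]
      · rw [cell_empty s h h1 h2]
        simp [h, h1, h2]

/-- row form of membership -/
theorem row_form {ρ κ y : F} (h : ρ ≠ κ) (hm : some y ∈ cell s ρ κ) :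
    (chi s (y - ρ) = 1 ∧ ρ - κ = 3 * (y - ρ)) ∨ (chi s (y - ρ) = iota s ∧ ρ - κ = 8 * (y - ρ)) ∨
    (chi s (y - ρ) = -1 ∧ ρ - κ = 9 * (y - ρ)) ∨
    (chi s (y - ρ) = -iota s ∧ ρ - κ = 8 * (y - ρ)) := by
  have h13 := c13 (F := F)
  rcases (some_mem s ρ κ y).1 hm with h0 | ⟨h1, h2 | h2⟩ | ⟨h1, h2 | h2⟩
  · exact absurd h0.1 h
  · left
    have h3 : y - ρ = 9 * (ρ - κ) := by linear_combination h2
    rw [h3, chi_mul, chi_nine, h1]
    exact ⟨by ring, by linear_combination -2 * (ρ - κ) * h13⟩
  · right; left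
    have h3 : y - ρ = 5 * (ρ - κ) := by linear_combination h2
    rw [h3, chi_mul, chi_five, h1]
    exact ⟨by ring, by linear_combination -3 * (ρ - κ) * h13⟩
  · right; right; left
    have h3 : y - ρ = 3 * (ρ - κ) := by linear_combination h2
    rw [h3, chi_mul, chi_three, h1]
    exact ⟨by ring, by linear_combination -2 * (ρ - κ) * h13⟩
  · right; right; right
    have h3 : y - ρ = 5 * (ρ - κ) := by linear_combination h2
    rw [h3, chi_mul, chi_five, h1]
    exact ⟨by ring, by linear_combination -3 * (ρ - κ) * h13⟩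

/-- column form of membership -/
theorem col_form {ρ κ y : F} (h : ρ ≠ κ) (hm : some y ∈ cell s ρ κ) :
    (chi s (y - κ) = -1 ∧ ρ - κ = 4 * (y - κ)) ∨ (chi s (y - κ) = iota s ∧ ρ - κ = 11 * (y - κ)) ∨
    (chi s (y - κ) = 1 ∧ ρ - κ = 10 * (y - κ)) ∨
    (chi s (y - κ) = -iota s ∧ ρ - κ = 11 * (y - κ)) := by
  have h13 := c13 (F := F)
  rcases (some_mem s ρ κ y).1 hm with h0 | ⟨h1, h2 | h2⟩ | ⟨h1, h2 | h2⟩
  · exact absurd h0.1 h
  · left
    have h3 : y - κ = 10 * (ρ - κ) := by linear_combination h2
    rw [h3, chi_mul, chi_ten, h1]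
    exact ⟨by ring, by linear_combination -3 * (ρ - κ) * h13⟩
  · right; left
    have h3 : y - κ = 6 * (ρ - κ) := by linear_combination h2
    rw [h3, chi_mul, chi_six, h1]
    exact ⟨by ring, by linear_combination -5 * (ρ - κ) * h13⟩
  · right; right; left
    have h3 : y - κ = 4 * (ρ - κ) := by linear_combination h2
    rw [h3, chi_mul, chi_four, h1]
    exact ⟨by ring, by linear_combination -3 * (ρ - κ) * h13⟩
  · right; right; right
    have h3 : y - κ = 6 * (ρ - κ) := by linear_combination h2
    rw [h3, chi_mul, chi_six, h1]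
    exact ⟨by ring, by linear_combination -5 * (ρ - κ) * h13⟩

/-- eliminating two different values of the character -/
theorem clash {P : Prop} {z : F} {a b : F} (ha : chi s z = a) (hb : chi s z = b) (hab : a ≠ b) :
    P := absurd (ha.symm.trans hb) hab

theorem row_unique {ρ κ κ' : F} {x : Option F} (h1 : x ∈ cell s ρ κ) (h2 : x ∈ cell s ρ κ') :
    κ = κ' := by
  have e1 := iota_ne_one (F := F) s
  have e2 := iota_ne_neg_one (F := F) s
  have e3 := iota_ne_neg (F := F) s
  have e4 := one_ne_neg_one (F := F)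
  have e5 : (1 : F) ≠ - iota s := fun e => e2 (by linear_combination e)
  have e6 : (-1 : F) ≠ - iota s := fun e => e1 (by linear_combination e)
  have e7 : (0 : F) ≠ 1 := zero_ne_one
  have e8 : (0 : F) ≠ -1 := fun e => e7 (by linear_combination -e)
  have e9 : (0 : F) ≠ iota s := fun e => iota_ne_zero (F := F) s e.symm
  have e10 : (0 : F) ≠ - iota s := fun e => e9 (by linear_combination -e)
  cases x with
  | none => rw [← (none_mem s ρ κ).1 h1, ← (none_mem s ρ κ').1 h2]
  | some y =>
    by_cases hy : y = ρ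
    · subst hy
      have key : ∀ κ, some y ∈ cell s y κ → κ = y := by
        intro κ hκ
        by_contra hne
        have := row_form s (fun e => hne e.symm) hκ
        rw [sub_self, chi_zero] at this
        rcases this with h | h | h | h
        · exact e7 h.1
        · exact e9 h.1
        · exact e8 h.1
        · exact e10 h.1
      rw [key κ h1, key κ' h2]
    · have ne : ∀ κ, some y ∈ cell s ρ κ → ρ ≠ κ := by
        rintro κ hκ rfl
        rw [cell_diag] at hκ
        simp at hκ
        exact hy hκ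
      rcases row_form s (ne κ h1) h1 with g | g | g | g <;>
      rcases row_form s (ne κ' h2) h2 with g' | g' | g' | g' <;>
      first
        | (exact sub_right_inj.1 (g.2.trans g'.2.symm))
        | (exact clash s g.1 g'.1 (by assumption))
        | (exact clash s g'.1 g.1 (by assumption))

theorem col_unique {ρ ρ' κ : F} {x : Option F} (h1 : x ∈ cell s ρ κ) (h2 : x ∈ cell s ρ' κ) :
    ρ = ρ' := by
  have e1 := iota_ne_one (F := F) s
  have e2 := iota_ne_neg_one (F := F) s
  have e3 := iota_ne_neg (F := F) s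
  have e4 := one_ne_neg_one (F := F)
  have e5 : (1 : F) ≠ - iota s := fun e => e2 (by linear_combination e)
  have e6 : (-1 : F) ≠ - iota s := fun e => e1 (by linear_combination e)
  have e7 : (0 : F) ≠ 1 := zero_ne_one
  have e8 : (0 : F) ≠ -1 := fun e => e7 (by linear_combination -e)
  have e9 : (0 : F) ≠ iota s := fun e => iota_ne_zero (F := F) s e.symm
  have e10 : (0 : F) ≠ - iota s := fun e => e9 (by linear_combination -e)
  cases x with
  | none => rw [(none_mem s ρ κ).1 h1, (none_mem s ρ' κ).1 h2]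
  | some y =>
    by_cases hy : y = κ
    · subst hy
      have key : ∀ ρ, some y ∈ cell s ρ y → ρ = y := by
        intro ρ hρ
        by_contra hne
        have := col_form s hne hρ
        rw [sub_self, chi_zero] at this
        rcases this with h | h | h | h
        · exact e8 h.1
        · exact e9 h.1
        · exact e7 h.1
        · exact e10 h.1
      rw [key ρ h1, key ρ' h2]
    · have ne : ∀ ρ, some y ∈ cell s ρ κ → ρ ≠ κ := by
        rintro ρ hρ rfl
        rw [cell_diag] at hρ
        simp at hρ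
        exact hy hρ
      rcases col_form s (ne ρ h1) h1 with g | g | g | g <;>
      rcases col_form s (ne ρ' h2) h2 with g' | g' | g' | g' <;>
      first
        | (exact sub_left_inj.1 (g.2.trans g'.2.symm))
        | (exact clash s g.1 g'.1 (by assumption))
        | (exact clash s g'.1 g.1 (by assumption))

theorem row_exists (hq : Fintype.card F = 24 * s + 13) (ρ : F) (x : Option F) :
    ∃ κ, x ∈ cell s ρ κ := by
  have h13 := c13 (F := F)
  have hi := iota_sq (F := F) s
  cases x with
  | none => exact ⟨ρ, (none_mem s ρ ρ).2 rfl⟩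
  | some y =>
    by_cases hy : y - ρ = 0
    · refine ⟨ρ, (some_mem s ρ ρ y).2 (Or.inl ⟨rfl, by linear_combination hy⟩)⟩
    · rcases chi_cases s hq (y - ρ) hy with h | h | h | h
      · refine ⟨ρ - 3 * (y - ρ), (some_mem s _ _ _).2 (Or.inr (Or.inl ⟨?_, Or.inl ?_⟩))⟩
        · rw [sub_sub_cancel, chi_mul, chi_three, h]; ring
        · linear_combination -2 * (y - ρ) * h13
      · refine ⟨ρ - 9 * (y - ρ), (some_mem s _ _ _).2 (Or.inr (Or.inr ⟨?_, Or.inl ?_⟩))⟩
        · rw [sub_sub_cancel, chi_mul, chi_nine, h]; ring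
        · linear_combination -2 * (y - ρ) * h13
      · refine ⟨ρ - 8 * (y - ρ), (some_mem s _ _ _).2 (Or.inr (Or.inl ⟨?_, Or.inr ?_⟩))⟩
        · rw [sub_sub_cancel, chi_mul, chi_eight, h]; linear_combination -hi
        · linear_combination -3 * (y - ρ) * h13
      · refine ⟨ρ - 8 * (y - ρ), (some_mem s _ _ _).2 (Or.inr (Or.inr ⟨?_, Or.inr ?_⟩))⟩
        · rw [sub_sub_cancel, chi_mul, chi_eight, h]; linear_combination hi
        · linear_combination -3 * (y - ρ) * h13

theorem col_exists (hq : Fintype.card F = 24 * s + 13) (κ : F) (x : Option F) :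
    ∃ ρ, x ∈ cell s ρ κ := by
  have h13 := c13 (F := F)
  have hi := iota_sq (F := F) s
  cases x with
  | none => exact ⟨κ, (none_mem s κ κ).2 rfl⟩
  | some y =>
    by_cases hy : y - κ = 0
    · refine ⟨κ, (some_mem s κ κ y).2 (Or.inl ⟨rfl, by linear_combination hy⟩)⟩
    · rcases chi_cases s hq (y - κ) hy with h | h | h | h
      · refine ⟨κ + 10 * (y - κ), (some_mem s _ _ _).2 (Or.inr (Or.inr ⟨?_, Or.inl ?_⟩))⟩
        · rw [add_sub_cancel_left, chi_mul, chi_ten, h]; ring
        · linear_combination -3 * (y - κ) * h13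
      · refine ⟨κ + 4 * (y - κ), (some_mem s _ _ _).2 (Or.inr (Or.inl ⟨?_, Or.inl ?_⟩))⟩
        · rw [add_sub_cancel_left, chi_mul, chi_four, h]; ring
        · linear_combination -3 * (y - κ) * h13
      · refine ⟨κ + 11 * (y - κ), (some_mem s _ _ _).2 (Or.inr (Or.inl ⟨?_, Or.inr ?_⟩))⟩
        · rw [add_sub_cancel_left, chi_mul, chi_eleven, h]; linear_combination -hi
        · linear_combination -5 * (y - κ) * h13
      · refine ⟨κ + 11 * (y - κ), (some_mem s _ _ _).2 (Or.inr (Or.inr ⟨?_, Or.inr ?_⟩))⟩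
        · rw [add_sub_cancel_left, chi_mul, chi_eleven, h]; linear_combination hi
        · linear_combination -5 * (y - κ) * h13

theorem cell_shape (ρ κ : F) : cell s ρ κ = ∅ ∨ ∃ x y, x ≠ y ∧ cell s ρ κ = {x, y} := by
  by_cases h : ρ = κ
  · subst h
    right
    exact ⟨none, some ρ, by simp, cell_diag s ρ⟩
  · have hd : ρ - κ ≠ 0 := sub_ne_zero.2 h
    have h2 := two_ne (F := F)
    by_cases h1 : chi s (ρ - κ) = 1
    · right
      refine ⟨_, _, ?_, cell_one s h1⟩
      intro e
      have e' := Option.some.inj e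
      have : (2 : F) * (2 * (ρ - κ)) = 0 := by linear_combination e'
      rcases mul_eq_zero.1 this with h3 | h3
      · exact h2 h3
      · rcases mul_eq_zero.1 h3 with h3 | h3
        · exact h2 h3
        · exact hd h3
    · by_cases h3 : chi s (ρ - κ) = -1
      · right
        refine ⟨_, _, ?_, cell_neg s h3⟩
        intro e
        have e' := Option.some.inj e
        have : (2 : F) * (ρ - κ) = 0 := by linear_combination -e'
        rcases mul_eq_zero.1 this with h3 | h3
        · exact h2 h3
        · exact hd h3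
      · left; exact cell_empty s h h1 h3

/-- pair form: where the pair `{x, y}` of field elements can be -/
theorem pair_form {ρ κ x y : F} (h : cell s ρ κ = {some x, some y}) :
    (chi s (x - y) = -1 ∧ ρ - κ = 10 * (x - y) ∧ ρ = y - 5 * (10 * (x - y))) ∨
    (chi s (x - y) = 1 ∧ ρ - κ = 3 * (x - y) ∧ ρ = x - 5 * (3 * (x - y))) ∨
    (chi s (x - y) = iota s ∧ ρ - κ = 6 * (x - y) ∧ ρ = y - 5 * (6 * (x - y))) ∨
    (chi s (x - y) = -iota s ∧ ρ - κ = 7 * (x - y) ∧ ρ = x - 5 * (7 * (x - y))) := by
  have h13 := c13 (F := F)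
  have hne : ρ ≠ κ := by
    rintro rfl
    rw [cell_diag] at h
    have : (none : Option F) ∈ ({some x, some y} : Set (Option F)) := by rw [← h]; simp
    simp at this
  by_cases h1 : chi s (ρ - κ) = 1
  · rw [cell_one s h1] at h
    rcases Set.pair_eq_pair_iff.1 h with ⟨ha, hb⟩ | ⟨ha, hb⟩
    · have ha' := Option.some.inj ha
      have hb' := Option.some.inj hb
      left
      have h3 : x - y = 4 * (ρ - κ) := by linear_combination hb' - ha'
      rw [h3, chi_mul, chi_four, h1]
      have h4 : ρ - κ = 10 * (4 * (ρ - κ)) := by linear_combination -3 * (ρ - κ) * h13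
      refine ⟨by ring, h4, ?_⟩
      rw [← h4]; linear_combination hb'
    · have ha' := Option.some.inj ha
      have hb' := Option.some.inj hb
      right; left
      have h3 : x - y = -(4 * (ρ - κ)) := by linear_combination ha' - hb'
      rw [h3, chi_neg, chi_mul, chi_four, h1]
      have h4 : ρ - κ = 3 * (-(4 * (ρ - κ))) := by linear_combination (ρ - κ) * h13
      refine ⟨by ring, h4, ?_⟩
      rw [← h4]; linear_combination hb'
  · by_cases h2 : chi s (ρ - κ) = -1
    · rw [cell_neg s h2] at h
      rcases Set.pair_eq_pair_iff.1 h with ⟨ha, hb⟩ | ⟨ha, hb⟩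
      · have ha' := Option.some.inj ha
        have hb' := Option.some.inj hb
        right; right; left
        have h3 : x - y = -(2 * (ρ - κ)) := by linear_combination hb' - ha'
        rw [h3, chi_neg, chi_mul, chi_two, h2]
        have h4 : ρ - κ = 6 * (-(2 * (ρ - κ))) := by linear_combination (ρ - κ) * h13
        refine ⟨by ring, h4, ?_⟩
        rw [← h4]; linear_combination hb'
      · have ha' := Option.some.inj ha
        have hb' := Option.some.inj hb
        right; right; right
        have h3 : x - y = 2 * (ρ - κ) := by linear_combination ha' - hb'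
        rw [h3, chi_mul, chi_two, h2]
        have h4 : ρ - κ = 7 * (2 * (ρ - κ)) := by linear_combination -(ρ - κ) * h13
        refine ⟨by ring, h4, ?_⟩
        rw [← h4]; linear_combination hb'
    · rw [cell_empty s hne h1 h2] at h
      exfalso
      have : (some x : Option F) ∈ (∅ : Set (Option F)) := by rw [h]; simp
      exact this

theorem pair_none {ρ κ y : F} (h : cell s ρ κ = {none, some y}) : ρ = y ∧ κ = y := by
  have h1 : ρ = κ := (none_mem s ρ κ).1 (by rw [h]; simp)
  subst h1
  have h2 : (some y : Option F) ∈ cell s ρ ρ := by rw [h]; simp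
  rw [cell_diag] at h2
  simp at h2
  exact ⟨h2.symm, h2.symm⟩

theorem pair_exists (hq : Fintype.card F = 24 * s + 13) {x y : F} (hxy : x ≠ y) :
    ∃ c : F × F, cell s c.1 c.2 = {some x, some y} := by
  have h13 := c13 (F := F)
  have hi := iota_sq (F := F) s
  rcases chi_cases s hq (x - y) (sub_ne_zero.2 hxy) with h | h | h | h
  · refine ⟨(x - 5 * (3 * (x - y)), x - 5 * (3 * (x - y)) - 3 * (x - y)), ?_⟩
    show cell s (x - 5 * (3 * (x - y))) (x - 5 * (3 * (x - y)) - 3 * (x - y)) = _
    rw [cell_one s (by rw [sub_sub_cancel, chi_mul, chi_three, h]; ring), sub_sub_cancel]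
    have h1 : x - 5 * (3 * (x - y)) + 9 * (3 * (x - y)) = y := by
      linear_combination (x - y) * h13
    have h2 : x - 5 * (3 * (x - y)) + 5 * (3 * (x - y)) = x := by ring
    rw [h1, h2, Set.pair_comm]
  · refine ⟨(y - 5 * (10 * (x - y)), y - 5 * (10 * (x - y)) - 10 * (x - y)), ?_⟩
    show cell s (y - 5 * (10 * (x - y))) (y - 5 * (10 * (x - y)) - 10 * (x - y)) = _
    rw [cell_one s (by rw [sub_sub_cancel, chi_mul, chi_ten, h]; ring), sub_sub_cancel]
    have h1 : y - 5 * (10 * (x - y)) + 9 * (10 * (x - y)) = x := by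
      linear_combination 3 * (x - y) * h13
    have h2 : y - 5 * (10 * (x - y)) + 5 * (10 * (x - y)) = y := by ring
    rw [h1, h2]
  · refine ⟨(y - 5 * (6 * (x - y)), y - 5 * (6 * (x - y)) - 6 * (x - y)), ?_⟩
    show cell s (y - 5 * (6 * (x - y))) (y - 5 * (6 * (x - y)) - 6 * (x - y)) = _
    rw [cell_neg s (by rw [sub_sub_cancel, chi_mul, chi_six, h]; linear_combination hi),
      sub_sub_cancel]
    have h1 : y - 5 * (6 * (x - y)) + 3 * (6 * (x - y)) = x := by
      linear_combination -(x - y) * h13
    have h2 : y - 5 * (6 * (x - y)) + 5 * (6 * (x - y)) = y := by ring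
    rw [h1, h2]
  · refine ⟨(x - 5 * (7 * (x - y)), x - 5 * (7 * (x - y)) - 7 * (x - y)), ?_⟩
    show cell s (x - 5 * (7 * (x - y))) (x - 5 * (7 * (x - y)) - 7 * (x - y)) = _
    rw [cell_neg s (by rw [sub_sub_cancel, chi_mul, chi_seven, h]; linear_combination hi),
      sub_sub_cancel]
    have h1 : x - 5 * (7 * (x - y)) + 3 * (7 * (x - y)) = y := by
      linear_combination -(x - y) * h13
    have h2 : x - 5 * (7 * (x - y)) + 5 * (7 * (x - y)) = x := by ring
    rw [h1, h2, Set.pair_comm]

theorem pair_unique {c c' : F × F} {x y : F} 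
    (h : cell s c.1 c.2 = {some x, some y}) (h' : cell s c'.1 c'.2 = {some x, some y}) :
    c = c' := by
  have e1 := iota_ne_one (F := F) s
  have e2 := iota_ne_neg_one (F := F) s
  have e3 := iota_ne_neg (F := F) s
  have e4 := one_ne_neg_one (F := F)
  have e5 : (1 : F) ≠ - iota s := fun e => e2 (by linear_combination e)
  have e6 : (-1 : F) ≠ - iota s := fun e => e1 (by linear_combination e)
  rcases pair_form s h with g | g | g | g <;>
  rcases pair_form s h' with g' | g' | g' | g' <;>
  first
    | (exact Prod.ext (g.2.2.trans g'.2.2.symm) (by linear_combination g.2.2 - g'.2.2 - g.2.1 + g'.2.1))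
    | (exact clash s g.1 g'.1 (by assumption))
    | (exact clash s g'.1 g.1 (by assumption))

theorem groom_cell (hq : Fintype.card F = 24 * s + 13) : GRoom (cell (F := F) s) := by
  refine ⟨cell_shape s, ?_, ?_, ?_⟩
  · intro x y hxy
    cases x with
    | none =>
      cases y with
      | none => exact absurd rfl hxy
      | some y =>
        refine ⟨(y, y), cell_diag s y, ?_⟩
        rintro ⟨a, b⟩ hab
        obtain ⟨h1, h2⟩ := pair_none s hab
        exact Prod.ext h1 h2
    | some x =>
      cases y with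
      | none =>
        refine ⟨(x, x), ?_, ?_⟩
        · show cell s x x = _
          rw [cell_diag, Set.pair_comm]
        · rintro ⟨a, b⟩ hab
          have hab' : cell s a b = {some x, none} := hab
          rw [Set.pair_comm] at hab'
          obtain ⟨h1, h2⟩ := pair_none s hab'
          exact Prod.ext h1 h2
      | some y =>
        have hxy' : x ≠ y := fun e => hxy (by rw [e])
        obtain ⟨c, hc⟩ := pair_exists s hq hxy'
        exact ⟨c, hc, fun c' hc' => pair_unique s hc' hc⟩
  · intro ρ x
    obtain ⟨κ, hκ⟩ := row_exists s hq ρ x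
    exact ⟨κ, hκ, fun κ' h' => row_unique s h' hκ⟩
  · intro κ x
    obtain ⟨ρ, hρ⟩ := col_exists s hq κ x
    exact ⟨ρ, hρ, fun ρ' h' => col_unique s h' hρ⟩

theorem nonempty_iff (ρ κ : F) :
    cell s ρ κ ≠ ∅ ↔ (ρ = κ ∨ chi s (ρ - κ) = 1 ∨ chi s (ρ - κ) = -1) := by
  by_cases h : ρ = κ
  · subst h
    rw [cell_diag]
    exact ⟨fun _ => Or.inl rfl, fun _ => (Set.insert_nonempty _ _).ne_empty⟩
  · by_cases h1 : chi s (ρ - κ) = 1
    · rw [cell_one s h1]
      exact ⟨fun _ => Or.inr (Or.inl h1), fun _ => (Set.insert_nonempty _ _).ne_empty⟩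
    · by_cases h2 : chi s (ρ - κ) = -1
      · rw [cell_neg s h2]
        exact ⟨fun _ => Or.inr (Or.inr h2), fun _ => (Set.insert_nonempty _ _).ne_empty⟩
      · rw [cell_empty s h h1 h2]; simp [h, h1, h2]

/-- multiplication by 2 -/
noncomputable def dbl : F ≃ F := Equiv.mulLeft₀ (2 : F) two_ne

/-- the second array -/
noncomputable def cell2 (ρ κ : F) : Set (Option F) :=
  (Equiv.optionCongr (dbl (F := F))) '' cell s (dbl.symm ρ) (dbl.symm κ)

theorem cell2_dbl (ρ κ : F) :
    cell2 s (dbl ρ) (dbl κ) = (Equiv.optionCongr (dbl (F := F))) '' cell s ρ κ := by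
  simp [cell2]

theorem groom_cell2 (hq : Fintype.card F = 24 * s + 13) : GRoom (cell2 (F := F) s) :=
  (groom_cell s hq).transport dbl dbl (Equiv.optionCongr dbl) (cell2_dbl s)

theorem cell2_diag (ρ : F) : cell2 s ρ ρ = {none, some ρ} := by
  unfold cell2
  rw [cell_diag, Set.image_pair]
  simp

theorem compl_iff (hq : Fintype.card F = 24 * s + 13) {ρ κ : F} (h : ρ ≠ κ) :
    cell s ρ κ ≠ ∅ ↔ cell2 s ρ κ = ∅ := by
  have e1 := iota_ne_one (F := F) s
  have e2 := iota_ne_neg_one (F := F) s
  have e4 := one_ne_neg_one (F := F)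
  have e5 : - iota s ≠ (1 : F) := fun e => e2 (by linear_combination -e)
  have e6 : - iota s ≠ (-1 : F) := fun e => e1 (by linear_combination -e)
  have hi := iota_sq (F := F) s
  have h2 : cell2 s ρ κ = ∅ ↔ cell s (dbl.symm ρ) (dbl.symm κ) = ∅ := by
    unfold cell2; rw [Set.image_eq_empty]
  have h3 : (2 : F) * (dbl.symm ρ - dbl.symm κ) = ρ - κ := by
    have ha : (2 : F) * dbl.symm ρ = ρ := dbl.apply_symm_apply ρ
    have hb : (2 : F) * dbl.symm κ = κ := dbl.apply_symm_apply κ
    linear_combination ha - hb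
  have h4 : chi s (ρ - κ) = iota s * chi s (dbl.symm ρ - dbl.symm κ) := by
    rw [← h3, chi_mul, chi_two]
  have h5 : dbl.symm ρ ≠ dbl.symm κ := fun e => h (dbl.symm.injective e)
  rw [h2, ← not_iff_not, not_not, ← Ne, nonempty_iff s (dbl.symm ρ)]
  have h6 := (not_congr (nonempty_iff s ρ κ))
  rw [not_not] at h6
  rw [h6]
  rcases chi_cases s hq _ (sub_ne_zero.2 h5) with g | g | g | g <;> rw [g] at h4 ⊢
  · rw [h4]; simp [h, h5, e1, e2]
  · rw [h4]
    have : iota s * (-1 : F) = - iota s := by ring
    rw [this]; simp [h, h5, e5, e6]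
  · rw [h4, hi]; simp [h, h5, e1, e2]
  · rw [h4]
    have : iota s * (- iota s : F) = 1 := by linear_combination -hi
    rw [this]; simp [h, h5, e5, e6]

/-- no relabelling of the array over the field is skew -/
theorem not_skew {r : ℕ} (σ τ : F ≃ Fin r) (π : Option F ≃ Fin (r + 1))
    (D : Arr r) (hD : ∀ i j, D (σ i) (τ j) = π '' cell s i j) (hs : IsSkew D) : False := by
  obtain ⟨hstd, hsk⟩ := hs
  have h13 := c13 (F := F)
  have hmem : ∀ k : Fin r, π.symm 0 ∈ cell s (σ.symm k) (τ.symm k) := by
    intro k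
    have h1 := hstd k
    have h2 := hD (σ.symm k) (τ.symm k)
    rw [Equiv.apply_symm_apply, Equiv.apply_symm_apply, h1] at h2
    have h3 : (0 : Fin (r + 1)) ∈ π '' cell s (σ.symm k) (τ.symm k) := by rw [← h2]; simp
    obtain ⟨z, hz, hz0⟩ := h3
    rw [← hz0, Equiv.symm_apply_apply]; exact hz
  have hocc : ∀ i j, D (σ i) (τ j) = ∅ ↔ cell s i j = ∅ := by
    intro i j
    rw [hD, Set.image_eq_empty]
  cases hx : π.symm 0 with
  | none =>
    have h1 : ∀ i, τ i = σ i := by
      intro i
      have := hmem (σ i)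
      rw [hx, none_mem, Equiv.symm_apply_apply] at this
      have h2 := congrArg τ this
      rw [Equiv.apply_symm_apply] at h2
      exact h2
    have hne : σ (0 : F) ≠ σ 1 := fun e => zero_ne_one (σ.injective e)
    have h2 := hsk (σ 0) (σ 1) hne
    have h3 := hocc 0 1
    have h4 := hocc 1 0
    rw [h1] at h3 h4
    rw [Ne, h3, h4] at h2
    have h5 : cell s (0 : F) 1 ≠ ∅ := (nonempty_iff s 0 1).2 (Or.inr (Or.inr (by
      rw [zero_sub, chi_neg_one])))
    have h6 : cell s (1 : F) 0 ≠ ∅ := (nonempty_iff s 1 0).2 (Or.inr (Or.inl (by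
      rw [sub_zero, chi_one])))
    exact h6 (h2.1 h5)
  | some c =>
    have hk : τ.symm (σ c) = c := by
      have h1 := hmem (σ c)
      rw [hx, Equiv.symm_apply_apply] at h1
      have h2 : some c ∈ cell s c c := by rw [cell_diag]; simp
      exact row_unique s h1 h2
    have hl : τ.symm (σ (c - 1)) = c - 4 := by
      have h1 := hmem (σ (c - 1))
      rw [hx, Equiv.symm_apply_apply] at h1
      have h2 : some c ∈ cell s (c - 1) (c - 4) := by
        refine (some_mem s _ _ _).2 (Or.inr (Or.inl ⟨?_, Or.inl ?_⟩))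
        · have : c - 1 - (c - 4) = 3 := by ring
          rw [this, chi_three]
        · linear_combination -2 * h13
      exact row_unique s h1 h2
    have hk' : τ c = σ c := by
      have := congrArg τ hk
      rw [Equiv.apply_symm_apply] at this
      exact this.symm
    have hl' : τ (c - 4) = σ (c - 1) := by
      have := congrArg τ hl
      rw [Equiv.apply_symm_apply] at this
      exact this.symm
    have hne : σ c ≠ σ (c - 1) := by
      intro e
      have := σ.injective e
      exact one_ne_zero (α := F) (by linear_combination this)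
    have h2 := hsk (σ c) (σ (c - 1)) hne
    have h3 := hocc c (c - 4)
    have h4 := hocc (c - 1) c
    rw [hl'] at h3
    rw [hk'] at h4
    rw [Ne, h3, h4] at h2
    have h5 : cell s c (c - 4) ≠ ∅ := (nonempty_iff s _ _).2 (Or.inr (Or.inr (by
      rw [sub_sub_cancel, chi_four])))
    have h6 : cell s (c - 1) c ≠ ∅ := (nonempty_iff s _ _).2 (Or.inr (Or.inr (by
      have : c - 1 - c = -1 := by ring
      rw [this, chi_neg_one])))
    exact h6 (h2.1 h5)

end field

/-! ### transport to `Fin r` -/

theorem isRoom_of_groom {r : ℕ} (hr : Odd r) (C : Arr r) (h : GRoom C) : IsRoom r C :=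
  ⟨hr, h.1, h.2.1, h.2.2.1, h.2.2.2⟩

/-- the symbol relabelling attached to a labelling of rows and columns -/
noncomputable def symb {F : Type} {r : ℕ} (e : F ≃ Fin r) : Option F ≃ Fin (r + 1) :=
  (Equiv.optionCongr e).trans (finSuccEquiv r).symm

/-- reading an array over the field as an array over `Fin r` -/
noncomputable def read {F : Type} {r : ℕ} (e : F ≃ Fin r) (c : F → F → Set (Option F)) : Arr r :=
  fun i j => symb e '' c (e.symm i) (e.symm j)

theorem read_apply {F : Type} {r : ℕ} (e : F ≃ Fin r) (c : F → F → Set (Option F)) (i j : F) :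
    read e c (e i) (e j) = symb e '' c i j := by
  simp [read]

theorem read_std {F : Type} {r : ℕ} (e : F ≃ Fin r) (c : F → F → Set (Option F))
    (h : ∀ i, c i i = {none, some i}) : IsStd (read e c) := by
  intro i
  unfold read
  rw [h, Set.image_pair]
  simp [symb]

theorem iso_refl {r : ℕ} (C : Arr r) : Iso C C :=
  ⟨Equiv.refl _, Equiv.refl _, Equiv.refl _, fun i j => by simp⟩

theorem card_form (k : ℕ) : ∃ s : ℕ, 13 ^ (2 * k + 1) = 24 * s + 13 := by
  induction k with
  | zero => exact ⟨0, by norm_num⟩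
  | succ k ih =>
    obtain ⟨s, hs⟩ := ih
    refine ⟨169 * s + 91, ?_⟩
    have : 13 ^ (2 * (k + 1) + 1) = 169 * 13 ^ (2 * k + 1) := by ring
    rw [this, hs]; ring

theorem exists_square (k : ℕ) : ∃ C : Arr (13 ^ (2 * k + 1)),
    IsRoom _ C ∧ HasComplement C ∧ ∀ D : Arr (13 ^ (2 * k + 1)), IsSkew D → ¬ Iso C D := by
  classical
  obtain ⟨s, hs⟩ := card_form k
  have : Fact (Nat.Prime 13) := ⟨by norm_num⟩
  let F := GaloisField 13 (2 * k + 1)
  let _ : Fintype F := Fintype.ofFinite F
  have hcard : Fintype.card F = 13 ^ (2 * k + 1) := by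
    rw [← Nat.card_eq_fintype_card]
    exact GaloisField.card 13 (2 * k + 1) (by omega)
  have hq : Fintype.card F = 24 * s + 13 := by rw [hcard, hs]
  let e : F ≃ Fin (13 ^ (2 * k + 1)) := Fintype.equivFinOfCardEq hcard
  have hodd : Odd (13 ^ (2 * k + 1)) := Odd.pow (by decide)
  have hC : IsRoom _ (read e (cell s)) := isRoom_of_groom hodd _
    ((groom_cell s hq).transport e e (symb e) (read_apply e _))
  have hC2 : IsRoom _ (read e (cell2 s)) := isRoom_of_groom hodd _
    ((groom_cell2 s hq).transport e e (symb e) (read_apply e _))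
  refine ⟨read e (cell s), hC, ⟨read e (cell s), read e (cell2 s), hC, hC2, iso_refl _,
    read_std e _ (cell_diag s), read_std e _ (cell2_diag s), ?_⟩, ?_⟩
  · intro i j hij
    have h1 : e.symm i ≠ e.symm j := fun h => hij (e.symm.injective h)
    have h2 := compl_iff s hq h1
    unfold read
    rw [Ne, Set.image_eq_empty, Set.image_eq_empty]
    exact h2
  · rintro D hD ⟨σ, τ, π, h⟩
    refine not_skew (F := F) s (e.trans σ) (e.trans τ) ((symb e).trans π) D ?_ hD
    intro i j
    have h1 := h (e i) (e j)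
    rw [read_apply, Set.image_image] at h1
    simpa using h1

/-- There are Room squares of the sides `13 ^ (2 k + 1)`, all having complements and none
isomorphic to a skew Room square; they are pairwise non-isomorphic. -/
theorem result : ∃ C : ∀ k : ℕ, Arr (13 ^ (2 * k + 1)),
    (∀ k, IsRoom (13 ^ (2 * k + 1)) (C k) ∧ HasComplement (C k) ∧
      ∀ D : Arr (13 ^ (2 * k + 1)), IsRoom (13 ^ (2 * k + 1)) D → IsSkew D → ¬ Iso (C k) D) ∧
    (∀ k l, k ≠ l → ¬ Iso (C k) (C l)) := by
  choose C hC using exists_square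
  refine ⟨C, fun k => ⟨(hC k).1, (hC k).2.1, fun D _ hD => (hC k).2.2 D hD⟩, ?_⟩
  rintro k l hkl ⟨σ, -, -, -⟩
  have h1 := Fintype.card_congr σ
  rw [Fintype.card_fin, Fintype.card_fin] at h1
  have h2 := Nat.pow_right_injective (le_refl 2 |>.trans (by norm_num : 2 ≤ 13)) h1
  omega

end Pool.Agent.Results.MP_b53726_co.ComplementNotSkew
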